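import Pool.Agent.Helper69.SPProof

/-!
# Shortest Path Most Vital Edges is W[1]-hard with respect to the deletion budget

The definitions are in `Pool/Agent/Helper69/SPInst.lean` (instances and their encodings) and in
`Pool/Agent/Helper69/SPDefs.lean` (parameterized problems, fpt reductions, W[1]-hardness, Clique
and SP-MVE).
-/

namespace Pool.Agent.Results.MP_40aef2_lc.W1Hard

open Pool.Agent.Helper69.SP

/-- Shortest Path Most Vital Edges parameterized by the number `k` of deleted edges is W[1]-hard,
even on instances in which all edges have length one. -/
theorem result : W1HardOn SPMVE fun x => ∀ e ∈ x.G.edgeSet, x.τ e = 1 := main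

end Pool.Agent.Results.MP_40aef2_lc.W1Hard
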